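import Mathlib

/-!
# Fractional total domatic number of cubic graphs: the core

For a cubic graph, let `c` be the class of a vertex for the relation of having a common neighbour. For every
vertex `v₀` there are a 2-colouring `σ` and a vertex `u ≠ v₀` of the class of `v₀` such that each
colour class without `u` meets all neighbourhoods in this class which do not contain `v₀`.
-/

set_option autoImplicit false

namespace Pool.Agent.Y337.FTD

open Finset

variable {V : Type} [Fintype V] [DecidableEq V]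

/-- fewer equations than unknowns -/
theorem ker_exists {ι : Type} (Z : Finset V) (I : Finset ι) (f : ι → Finset V)
    (hI : ∀ i ∈ I, f i ⊆ Z) (hc : I.card < Z.card) :
    ∃ z : V → ℝ, (∀ y, y ∉ Z → z y = 0) ∧ (∃ y ∈ Z, z y ≠ 0) ∧ ∀ i ∈ I, ∑ y ∈ f i, z y = 0 := by
  classical
  let M : Matrix I Z ℝ := fun i y => if y.1 ∈ f i.1 then 1 else 0
  have h1 : LinearMap.ker M.mulVecLin ≠ ⊥ := by
    apply LinearMap.ker_ne_bot_of_finrank_lt
    rw [Module.finrank_fintype_fun_eq_card, Module.finrank_fintype_fun_eq_card,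
      Fintype.card_coe, Fintype.card_coe]
    exact hc
  obtain ⟨z, hz, hz0⟩ := (Submodule.ne_bot_iff _).1 h1
  rw [LinearMap.mem_ker, Matrix.mulVecLin_apply] at hz
  refine ⟨fun y => if h : y ∈ Z then z ⟨y, h⟩ else 0, fun y hy => by simp [hy], ?_, ?_⟩
  · obtain ⟨y, hy⟩ := Function.ne_iff.1 hz0
    exact ⟨y.1, y.2, by simpa using hy⟩
  · intro i hi
    have h2 := congrFun hz ⟨i, hi⟩
    simp only [Matrix.mulVec, dotProduct, Pi.zero_apply, M] at h2
    refine Eq.trans ?_ h2
    have h3 : ∑ y ∈ f i, (if h : y ∈ Z then z ⟨y, h⟩ else 0) =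
        ∑ y ∈ Z, if y ∈ f i then (if h : y ∈ Z then z ⟨y, h⟩ else 0) else 0 := by
      rw [← Finset.sum_filter]
      congr 1
      ext y
      simp only [mem_filter]
      exact ⟨fun h => ⟨hI i hi h, h⟩, fun h => h.2⟩
    refine h3.trans ?_
    rw [← Finset.sum_coe_sort Z]
    refine Finset.sum_congr rfl fun y _ => ?_
    by_cases h : y.1 ∈ f i
    · simp [h]
    · simp [h]

/-- a vector is balanced on a set if it vanishes there or takes both signs -/
def Bal (x : V → ℝ) (e : Finset V) : Prop :=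
  (∀ y ∈ e, x y = 0) ∨ ((∃ y ∈ e, 0 < x y) ∧ ∃ y ∈ e, x y < 0)

omit [Fintype V] [DecidableEq V] in
theorem bal_of_sum (x : V → ℝ) (e : Finset V) (h : ∑ y ∈ e, x y = 0) : Bal x e := by
  by_cases h1 : ∃ y ∈ e, 0 < x y
  · by_cases h2 : ∃ y ∈ e, x y < 0
    · exact Or.inr ⟨h1, h2⟩
    · push Not at h2
      exact Or.inl ((Finset.sum_eq_zero_iff_of_nonneg h2).1 h)
  · push Not at h1
    exact Or.inl ((Finset.sum_eq_zero_iff_of_nonpos h1).1 h)

/-- **Lovász's lemma**: if every nonempty `Z ⊆ X` contains fewer than `|Z|` edges then `X` has a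
nowhere zero vector taking both signs on every edge inside `X`. -/
theorem full_balanced {ι : Type} [Fintype ι] (X : Finset V) (f : ι → Finset V)
    (hf : ∀ i, (f i).Nonempty)
    (h : ∀ Z ⊆ X, Z.Nonempty → (univ.filter (fun i => f i ⊆ Z)).card < Z.card) :
    ∃ x : V → ℝ, (∀ y ∈ X, x y ≠ 0) ∧
      ∀ i, f i ⊆ X → (∃ y ∈ f i, 0 < x y) ∧ ∃ y ∈ f i, x y < 0 := by
  classical
  have main : ∀ n : ℕ, ∀ x : V → ℝ, (X.filter (fun y => x y = 0)).card = n →
      (∀ i, f i ⊆ X → Bal x (f i)) → ∃ x' : V → ℝ, (∀ y ∈ X, x' y ≠ 0) ∧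
        ∀ i, f i ⊆ X → Bal x' (f i) := by
    intro n
    induction n using Nat.strong_induction_on with
    | _ n ih =>
      intro x hn hx
      set Z := X.filter (fun y => x y = 0) with hZ
      by_cases hne : Z.Nonempty
      · obtain ⟨z, hz0, ⟨y0, hy0, hzy0⟩, hzs⟩ := ker_exists Z (univ.filter (fun i => f i ⊆ Z)) f
          (fun i hi => (mem_filter.1 hi).2) (h Z (filter_subset _ _) hne)
        refine ih (X.filter (fun y => x y + z y = 0)).card ?_ (fun y => x y + z y) rfl ?_
        · rw [← hn]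
          apply Finset.card_lt_card
          refine ⟨fun y hy => ?_, fun hsub => ?_⟩
          · rw [mem_filter] at hy
            rw [hZ, mem_filter]
            refine ⟨hy.1, ?_⟩
            by_contra hne0
            have : y ∉ Z := by rw [hZ, mem_filter]; exact fun h' => hne0 h'.2
            have h2 := hy.2
            rw [hz0 y this, add_zero] at h2
            exact hne0 h2
          · have h1 := hsub hy0
            rw [mem_filter] at h1
            rw [hZ, mem_filter] at hy0
            have h2 := h1.2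
            rw [hy0.2, zero_add] at h2
            exact hzy0 h2
        · intro i hi
          rcases hx i hi with h0 | ⟨⟨p, hp, hp'⟩, q, hq, hq'⟩
          · have hiZ : f i ⊆ Z := fun y hy => by
              rw [hZ, mem_filter]
              exact ⟨hi hy, h0 y hy⟩
            have hb := bal_of_sum z (f i) (hzs i (by simp [hiZ]))
            rcases hb with hb | ⟨⟨p, hp, hp'⟩, q, hq, hq'⟩
            · exact Or.inl fun y hy => by
                change x y + z y = 0
                rw [h0 y hy, hb y hy, add_zero]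
            · refine Or.inr ⟨⟨p, hp, ?_⟩, q, hq, ?_⟩
              · change 0 < x p + z p
                rw [h0 p hp, zero_add]
                exact hp'
              · change x q + z q < 0
                rw [h0 q hq, zero_add]
                exact hq'
          · refine Or.inr ⟨⟨p, hp, ?_⟩, q, hq, ?_⟩
            · have : p ∉ Z := by rw [hZ, mem_filter]; exact fun h' => hp'.ne' h'.2
              change 0 < x p + z p
              rw [hz0 p this, add_zero]
              exact hp'
            · have : q ∉ Z := by rw [hZ, mem_filter]; exact fun h' => hq'.ne h'.2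
              change x q + z q < 0
              rw [hz0 q this, add_zero]
              exact hq'
      · refine ⟨x, fun y hy h0 => hne ⟨y, ?_⟩, hx⟩
        rw [hZ, mem_filter]
        exact ⟨hy, h0⟩
  obtain ⟨x, hx, hb⟩ := main _ (fun _ => 0) rfl fun i _ => Or.inl fun _ _ => rfl
  refine ⟨x, hx, fun i hi => ?_⟩
  rcases hb i hi with h0 | h1
  · obtain ⟨y, hy⟩ := hf i
    exact absurd (h0 y hy) (hx y (hi hy))
  · exact h1

section graph

variable (G : SimpleGraph V) [DecidableRel G.Adj]

/-- common neighbour -/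
def R (x y : V) : Prop := ∃ v, G.Adj v x ∧ G.Adj v y

omit [Fintype V] [DecidableEq V] [DecidableRel G.Adj] in
theorem class_closed (Z : Finset V) (hZ : ∀ x y, R G x y → x ∈ Z → y ∈ Z) (x y : V)
    (h : Quot.mk (R G) x = Quot.mk (R G) y) (hx : x ∈ Z) : y ∈ Z := by
  have h1 : ∀ a b, R G a b → (a ∈ Z) = (b ∈ Z) := fun a b hab =>
    propext ⟨hZ a b hab, hZ b a ⟨hab.choose, hab.choose_spec.2, hab.choose_spec.1⟩⟩
  have h2 := congrArg (Quot.lift (fun v => v ∈ Z) h1) h
  simp only at h2
  exact h2 ▸ hx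

/-- a proper nonempty part of a class contains fewer neighbourhoods than vertices -/
theorem count (h3 : G.IsRegularOfDegree 3) (v₀ : V) (Z : Finset V)
    (hZ : ∀ z ∈ Z, Quot.mk (R G) z = Quot.mk (R G) v₀) (hv : v₀ ∉ Z) (hne : Z.Nonempty) :
    (univ.filter (fun v => G.neighborFinset v ⊆ Z)).card < Z.card := by
  classical
  by_contra hcon
  push Not at hcon
  set I := univ.filter (fun v => G.neighborFinset v ⊆ Z) with hI
  have h1 := Finset.sum_card_bipartiteAbove_eq_sum_card_bipartiteBelow (s := I) (t := Z)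
    (fun v y => G.Adj v y)
  have h2 : ∑ v ∈ I, (Z.bipartiteAbove (fun v y => G.Adj v y) v).card = 3 * I.card := by
    rw [Finset.sum_congr rfl (g := fun _ => 3), Finset.sum_const, smul_eq_mul, mul_comm]
    intro v hv
    have h4 : Z.bipartiteAbove (fun v y => G.Adj v y) v = G.neighborFinset v := by
      ext y
      rw [Finset.mem_bipartiteAbove, SimpleGraph.mem_neighborFinset]
      refine ⟨fun h => h.2, fun h => ⟨?_, h⟩⟩
      exact (mem_filter.1 hv).2 ((SimpleGraph.mem_neighborFinset _ _ _).2 h)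
    rw [h4]
    exact h3 v
  have h4 : ∀ y ∈ Z, (I.bipartiteBelow (fun v y => G.Adj v y) y).card ≤ 3 := by
    intro y _
    rw [← h3 y]
    apply Finset.card_le_card
    intro v hv
    rw [Finset.mem_bipartiteBelow] at hv
    rw [SimpleGraph.mem_neighborFinset]
    exact hv.2.symm
  have h5 : ∀ y ∈ Z, (I.bipartiteBelow (fun v y => G.Adj v y) y).card = 3 := by
    by_contra hex
    push Not at hex
    obtain ⟨y, hy, hy3⟩ := hex
    have h6 : ∑ y ∈ Z, (I.bipartiteBelow (fun v y => G.Adj v y) y).card < ∑ _y ∈ Z, 3 :=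
      Finset.sum_lt_sum h4 ⟨y, hy, lt_of_le_of_ne (h4 y hy) hy3⟩
    rw [Finset.sum_const, smul_eq_mul] at h6
    omega
  have h6 : ∀ y ∈ Z, ∀ v, G.Adj y v → v ∈ I := by
    intro y hy v hyv
    have h7 : I.bipartiteBelow (fun v y => G.Adj v y) y = G.neighborFinset y := by
      apply Finset.eq_of_subset_of_card_le
      · intro w hw
        rw [Finset.mem_bipartiteBelow] at hw
        rw [SimpleGraph.mem_neighborFinset]
        exact hw.2.symm
      · rw [h5 y hy]
        exact (h3 y).le
    have h8 : v ∈ I.bipartiteBelow (fun v y => G.Adj v y) y := by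
      rw [h7, SimpleGraph.mem_neighborFinset]
      exact hyv
    rw [Finset.mem_bipartiteBelow] at h8
    exact h8.1
  obtain ⟨z, hz⟩ := hne
  apply hv
  refine class_closed G Z ?_ z v₀ (hZ z hz) hz
  rintro x y ⟨v, hvx, hvy⟩ hx
  have h7 := h6 x hx v hvx.symm
  exact (mem_filter.1 h7).2 ((SimpleGraph.mem_neighborFinset _ _ _).2 hvy)

omit [Fintype V] in
/-- three elements with both colours -/
theorem three (σ : V → Bool) (e : Finset V) (he : e.card = 3) (h1 : ∃ y ∈ e, σ y = true)
    (h0 : ∃ y ∈ e, σ y = false) :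
    ∃ s : V, ∀ u, u ≠ s → ∀ b, ∃ z ∈ e, z ≠ u ∧ σ z = b := by
  obtain ⟨p, q, r, hpq, hpr, hqr, rfl⟩ := Finset.card_eq_three.1 he
  simp only [mem_insert, mem_singleton, exists_eq_or_imp, exists_eq_left] at h1 h0
  rcases hp : σ p <;> rcases hq : σ q <;> rcases hr : σ r <;>
    simp only [hp, hq, hr, or_true, or_false, Bool.false_eq_true, Bool.true_eq_false] at h1 h0
  · -- r alone
    refine ⟨r, fun u hu b => ?_⟩
    cases b
    · by_cases hup : u = p
      · exact ⟨q, by simp, by rw [hup]; exact hpq.symm, hq⟩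
      · exact ⟨p, by simp, Ne.symm hup, hp⟩
    · exact ⟨r, by simp, hu.symm, hr⟩
  · refine ⟨q, fun u hu b => ?_⟩
    cases b
    · by_cases hup : u = p
      · exact ⟨r, by simp, by rw [hup]; exact hpr.symm, hr⟩
      · exact ⟨p, by simp, Ne.symm hup, hp⟩
    · exact ⟨q, by simp, hu.symm, hq⟩
  · refine ⟨p, fun u hu b => ?_⟩
    cases b
    · exact ⟨p, by simp, hu.symm, hp⟩
    · by_cases hup : u = q
      · exact ⟨r, by simp, by rw [hup]; exact hqr.symm, hr⟩
      · exact ⟨q, by simp, Ne.symm hup, hq⟩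
  · refine ⟨p, fun u hu b => ?_⟩
    cases b
    · by_cases hup : u = q
      · exact ⟨r, by simp, by rw [hup]; exact hqr.symm, hr⟩
      · exact ⟨q, by simp, Ne.symm hup, hq⟩
    · exact ⟨p, by simp, hu.symm, hp⟩
  · refine ⟨q, fun u hu b => ?_⟩
    cases b
    · exact ⟨q, by simp, hu.symm, hq⟩
    · by_cases hup : u = p
      · exact ⟨r, by simp, by rw [hup]; exact hpr.symm, hr⟩
      · exact ⟨p, by simp, Ne.symm hup, hp⟩
  · refine ⟨r, fun u hu b => ?_⟩
    cases b
    · exact ⟨r, by simp, hu.symm, hr⟩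
    · by_cases hup : u = p
      · exact ⟨q, by simp, by rw [hup]; exact hpq.symm, hq⟩
      · exact ⟨p, by simp, Ne.symm hup, hp⟩

/-- **The core lemma.** -/
theorem core (h3 : G.IsRegularOfDegree 3) (v₀ : V) :
    ∃ (σ : V → Bool) (u : V), u ≠ v₀ ∧ Quot.mk (R G) u = Quot.mk (R G) v₀ ∧
      ∀ v, (∀ y, G.Adj v y → Quot.mk (R G) y = Quot.mk (R G) v₀) → ¬ G.Adj v v₀ →
        ∀ b, ∃ y, G.Adj v y ∧ y ≠ u ∧ σ y = b := by
  classical
  set X : Finset V := univ.filter (fun y => Quot.mk (R G) y = Quot.mk (R G) v₀ ∧ y ≠ v₀) with hX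
  have hX1 : ∀ z ∈ X, Quot.mk (R G) z = Quot.mk (R G) v₀ := fun z hz => (mem_filter.1 hz).2.1
  have hX2 : v₀ ∉ X := fun h => (mem_filter.1 h).2.2 rfl
  have hcnt : ∀ Z ⊆ X, Z.Nonempty →
      (univ.filter (fun v => G.neighborFinset v ⊆ Z)).card < Z.card := fun Z hZ hne =>
    count G h3 v₀ Z (fun z hz => hX1 z (hZ hz)) (fun h => hX2 (hZ h)) hne
  have hN : ∀ v, (G.neighborFinset v).card = 3 := h3
  obtain ⟨x, hx0, hx⟩ := full_balanced X (fun v => G.neighborFinset v)
    (fun v => Finset.card_pos.1 (by rw [hN v]; norm_num)) hcnt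
  set σ : V → Bool := fun y => decide (0 < x y) with hσ
  have hs : ∀ v, G.neighborFinset v ⊆ X →
      ∃ s : V, ∀ u, u ≠ s → ∀ b, ∃ z ∈ G.neighborFinset v, z ≠ u ∧ σ z = b := by
    intro v hv
    obtain ⟨⟨p, hp, hp'⟩, q, hq, hq'⟩ := hx v hv
    exact three σ _ (hN v) ⟨p, hp, by simp [hσ, hp']⟩ ⟨q, hq, by simp [hσ, hq'.le]⟩
  have : Nonempty V := ⟨v₀⟩
  choose! g hg using hs
  have hXne : X.Nonempty := by
    have h1 : 0 < (G.neighborFinset v₀).card := by rw [hN v₀]; norm_num
    obtain ⟨v, hv⟩ := Finset.card_pos.1 h1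
    rw [SimpleGraph.mem_neighborFinset] at hv
    have h2 : ∃ y ∈ G.neighborFinset v, y ≠ v₀ := by
      apply Finset.exists_mem_ne
      rw [hN v]
      norm_num
    obtain ⟨y, hy, hyv⟩ := h2
    rw [SimpleGraph.mem_neighborFinset] at hy
    refine ⟨y, ?_⟩
    rw [hX, mem_filter]
    exact ⟨mem_univ _, Quot.sound ⟨v, hy, hv.symm⟩, hyv⟩
  have hlt : ((univ.filter (fun v => G.neighborFinset v ⊆ X)).image g).card < X.card :=
    lt_of_le_of_lt Finset.card_image_le (hcnt X subset_rfl hXne)
  obtain ⟨u, huX, hu⟩ := Finset.exists_mem_notMem_of_card_lt_card hlt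
  refine ⟨σ, u, (mem_filter.1 huX).2.2, hX1 u huX, fun v hv hv0 b => ?_⟩
  have hvX : G.neighborFinset v ⊆ X := by
    intro y hy
    rw [SimpleGraph.mem_neighborFinset] at hy
    rw [hX, mem_filter]
    refine ⟨mem_univ _, hv y hy, ?_⟩
    rintro rfl
    exact hv0 hy
  have hne : u ≠ g v := by
    rintro rfl
    exact hu (Finset.mem_image_of_mem _ (by simp [hvX]))
  obtain ⟨z, hz, hz'⟩ := hg v hvX u hne b
  exact ⟨z, (SimpleGraph.mem_neighborFinset _ _ _).1 hz, hz'⟩

end graph

end Pool.Agent.Y337.FTD
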