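import Pool.Agent.Y337.FTD.Core

/-!
# Fractional total domatic number of cubic graphs: the packing

The map `v₀ ↦ u(v₀)` of the core lemma is iterated until it becomes periodic; the average of the
pairs of total dominating sets along a period covers every vertex exactly once.
-/

set_option autoImplicit false

namespace Pool.Agent.Y337.FTD

open Finset

/-- **The fractional total domatic number of every cubic graph is at least two.** -/
theorem ftd_ge_two (V : Type) [Fintype V] [DecidableEq V] (G : SimpleGraph V) [DecidableRel G.Adj]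
    (h3 : G.IsRegularOfDegree 3) :
    ∃ w : Finset V → ℝ,
      (∀ S, 0 ≤ w S) ∧
      (∀ S, w S ≠ 0 → ∀ v : V, ∃ u ∈ S, G.Adj v u) ∧
      (∀ v : V, ∑ S ∈ Finset.univ.filter (fun S : Finset V => v ∈ S), w S ≤ 1) ∧
      2 ≤ ∑ S, w S := by
  classical
  choose σ U hU hUc hcore using core G h3
  -- representatives of the classes
  let rep : V → V := fun v => (Quot.mk (R G) v).out
  have hrep : ∀ v, Quot.mk (R G) (rep v) = Quot.mk (R G) v := fun v => Quot.out_eq _
  have hrep' : ∀ x y, Quot.mk (R G) x = Quot.mk (R G) y → rep x = rep y := fun x y h => by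
    change (Quot.mk (R G) x).out = (Quot.mk (R G) y).out
    rw [h]
  -- a period
  obtain ⟨a, L, hL, hper⟩ : ∃ a L : ℕ, 0 < L ∧ U^[a + L] = U^[a] := by
    obtain ⟨i, j, hij, h⟩ := Finite.exists_ne_map_eq_of_infinite (fun k : ℕ => U^[k])
    rcases lt_or_gt_of_ne hij with h1 | h1
    · exact ⟨i, j - i, by omega, by rw [Nat.add_sub_cancel' h1.le]; exact h.symm⟩
    · exact ⟨j, i - j, by omega, by rw [Nat.add_sub_cancel' h1.le]; exact h⟩
  -- the roots at time `t`
  let ρ : ℕ → V → V := fun t x => U^[a + t] (rep x)
  have hρc : ∀ t x, Quot.mk (R G) (ρ t x) = Quot.mk (R G) x := by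
    intro t x
    have h1 : ∀ k, Quot.mk (R G) (U^[k] (rep x)) = Quot.mk (R G) x := by
      intro k
      induction k with
      | zero => exact hrep x
      | succ k ih => rw [Function.iterate_succ_apply', hUc, ih]
    exact h1 _
  have hρ' : ∀ t x y, Quot.mk (R G) x = Quot.mk (R G) y → ρ t x = ρ t y := fun t x y h => by
    change U^[a + t] (rep x) = U^[a + t] (rep y)
    rw [hrep' x y h]
  -- the total dominating sets
  let S : ℕ → Bool → Finset V := fun t b =>
    univ.filter (fun x => x = ρ t x ∨ (σ (ρ t x) x = b ∧ x ≠ U (ρ t x)))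
  have hS : ∀ t b v, ∃ y ∈ S t b, G.Adj v y := by
    intro t b v
    have h1 : 0 < (G.neighborFinset v).card := by
      have : (G.neighborFinset v).card = 3 := h3 v
      rw [this]; norm_num
    obtain ⟨y₀, hy₀⟩ := Finset.card_pos.1 h1
    rw [SimpleGraph.mem_neighborFinset] at hy₀
    have hcl : ∀ y, G.Adj v y → Quot.mk (R G) y = Quot.mk (R G) y₀ := fun y hy =>
      Quot.sound ⟨v, hy, hy₀⟩
    by_cases hr : G.Adj v (ρ t y₀)
    · refine ⟨ρ t y₀, ?_, hr⟩
      simp only [S, mem_filter, mem_univ, true_and]
      left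
      exact (hρ' t _ _ (hρc t y₀)).symm
    · obtain ⟨y, hy, hyu, hyb⟩ := hcore (ρ t y₀) v
        (fun y hy => (hcl y hy).trans (hρc t y₀).symm) hr b
      refine ⟨y, ?_, hy⟩
      simp only [S, mem_filter, mem_univ, true_and]
      right
      rw [hρ' t y y₀ (hcl y hy)]
      exact ⟨hyb, hyu⟩
  -- each vertex is covered once on average
  have hcov : ∀ x t, (∑ b : Bool, if x ∈ S t b then (1 : ℝ) else 0) =
      1 + ((if x = U^[a + t] (rep x) then (1 : ℝ) else 0) -
        if x = U^[a + (t + 1)] (rep x) then (1 : ℝ) else 0) := by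
    intro x t
    have h1 : U^[a + (t + 1)] (rep x) = U (ρ t x) := by
      change U^[(a + t) + 1] (rep x) = U (U^[a + t] (rep x))
      rw [Function.iterate_succ_apply']
    have h2 : U^[a + t] (rep x) = ρ t x := rfl
    rw [h1, h2]
    simp only [S, mem_filter, mem_univ, true_and, Fintype.sum_bool]
    by_cases hx : x = ρ t x
    · have h4 : x ≠ U (ρ t x) := fun h => hU (ρ t x) (h ▸ hx)
      rw [if_pos (Or.inl hx), if_pos (Or.inl hx), if_pos hx, if_neg h4]
      norm_num
    · rw [if_neg hx]
      by_cases hxu : x = U (ρ t x)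
      · rw [if_pos hxu, if_neg, if_neg]
        · norm_num
        · rintro (h | h)
          · exact hx h
          · exact h.2 hxu
        · rintro (h | h)
          · exact hx h
          · exact h.2 hxu
      · rw [if_neg hxu]
        cases hσ : σ (ρ t x) x
        · rw [if_neg, if_pos]
          · norm_num
          · exact Or.inr ⟨rfl, hxu⟩
          · rintro (h | h)
            · exact hx h
            · exact Bool.false_ne_true h.1
        · rw [if_pos, if_neg]
          · norm_num
          · rintro (h | h)
            · exact hx h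
            · exact Bool.false_ne_true h.1.symm
          · exact Or.inr ⟨rfl, hxu⟩
  have hL' : (0 : ℝ) < L := by exact_mod_cast hL
  refine ⟨fun T => (1 / (L : ℝ)) * ∑ t ∈ range L, ∑ b : Bool, if S t b = T then (1 : ℝ) else 0,
    ?_, ?_, ?_, ?_⟩
  · intro T
    positivity
  · intro T hT v
    have h1 : ∃ t b, S t b = T := by
      by_contra hcon
      push Not at hcon
      apply hT
      simp only
      rw [Finset.sum_eq_zero, mul_zero]
      intro t _
      exact Finset.sum_eq_zero fun b _ => if_neg (hcon t b)
    obtain ⟨t, b, rfl⟩ := h1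
    exact hS t b v
  · intro x
    rw [← Finset.mul_sum, Finset.sum_comm]
    have h1 : ∀ t ∈ range L, (∑ T ∈ univ.filter (fun T : Finset V => x ∈ T), ∑ b : Bool,
        if S t b = T then (1 : ℝ) else 0) =
        1 + ((if x = U^[a + t] (rep x) then (1 : ℝ) else 0) -
        if x = U^[a + (t + 1)] (rep x) then (1 : ℝ) else 0) := by
      intro t _
      rw [← hcov x t, Finset.sum_comm]
      refine Finset.sum_congr rfl fun b _ => ?_
      rw [Finset.sum_ite_eq]
      simp
    rw [Finset.sum_congr rfl h1, Finset.sum_add_distrib,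
      Finset.sum_range_sub' (fun t => if x = U^[a + t] (rep x) then (1 : ℝ) else 0), add_zero,
      hper, sub_self, add_zero, Finset.sum_const, card_range, nsmul_eq_mul, mul_one]
    rw [one_div, inv_mul_cancel₀ hL'.ne']
  · rw [← Finset.mul_sum, Finset.sum_comm]
    have h1 : ∀ t ∈ range L, (∑ T : Finset V, ∑ b : Bool,
        if S t b = T then (1 : ℝ) else 0) = 2 := by
      intro t _
      rw [Finset.sum_comm]
      simp
    rw [Finset.sum_congr rfl h1, Finset.sum_const, card_range, nsmul_eq_mul]
    rw [one_div, ← mul_assoc, inv_mul_cancel₀ hL'.ne', one_mul]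

end Pool.Agent.Y337.FTD
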